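import Pool.Agent.helper48.AN.SpecD

namespace AN

open scoped Classical
open MvPowerSeries (constantCoeff coeff)

noncomputable section

/-- the complement of `A`: no terms `s^(-r)`, `r` a non-gap -/
def DH_V (k : Type) [Field k] {g : ℕ} (γ : Fin g → ℕ) : Submodule k (LS k) where
  carrier := {v | ∀ r : ℕ, ¬ Gp γ r → cf v (-(r : ℤ)) = 0}
  zero_mem' := fun _ _ => cf_zero _
  add_mem' := fun {f g} hf hg r hr => by rw [cf_add, hf r hr, hg r hr, add_zero]
  smul_mem' := fun c f hf r hr => by rw [cf_smul, hf r hr, mul_zero]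

theorem DH_sup {k : Type} [Field k] {g : ℕ} {γ : Fin g → ℕ} {a : ℕ → LS k} (hKA : KA_stmt)
    (ha : IsK γ a) : AA γ a ⊔ DH_V k γ = ⊤ := by
  rw [eq_top_iff]
  intro x _
  obtain ⟨α, hα, c, o, ho, rfl⟩ := (hKA k g γ a ha).1 x
  rw [add_assoc]
  refine Submodule.add_mem_sup hα ?_
  intro r hr
  rw [cf_add, cf_sum, ho _ (by omega), add_zero]
  refine Finset.sum_eq_zero fun i _ => ?_
  rw [cf_mono, if_neg]
  intro h
  exact hr ⟨i, by omega⟩

theorem DH_inf {k : Type} [Field k] {g : ℕ} {γ : Fin g → ℕ} {a : ℕ → LS k} (hKA : KA_stmt)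
    (ha : IsK γ a) : AA γ a ⊓ DH_V k γ = ⊥ := by
  rw [eq_bot_iff]
  rintro x ⟨hx, hx2⟩
  have h := (hKA k g γ a ha).2.2 x hx 0 (fun r _ hr => hx2 r hr)
  rw [Submodule.mem_bot, h]
  refine Finset.sum_eq_zero fun r _ => ?_
  split_ifs with h'
  · rfl
  · rw [hx2 r h', zero_smul]

theorem DH_coeff_sw {k : Type} [Field k] {N : ℕ} (f : LS (BB k N)) (α : Fin N →₀ ℕ) (n : ℤ) :
    cf (coeff α (sw f)) n = coeff α (cf f n) := rfl

theorem DH_coeff_cB {k : Type} [Field k] {N : ℕ} (b : BB k N) (α : Fin N →₀ ℕ) :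
    coeff α (cB b) = LS.C (coeff α b) := rfl

theorem DH (hDB : DB_stmt) (hDD : DD_stmt) (hDF : DF_stmt) (hDG : DG_stmt) (hKA : KA_stmt) :
    DH_stmt := by
  intro k _ N g γ a ha h
  obtain ⟨hP1, hPadd, hPmul, hPB, _⟩ := hDB k N h
  obtain ⟨hPlow, _⟩ := hDD k N h
  obtain ⟨sw1, swadd, swmul, swinj, _, _, _, swC, swmono, swGE, swsurj⟩ := hDF k N
  obtain ⟨hdec, huniq⟩ := hDG k N (Phi h) hPadd hPlow (AA γ a) (DH_V k γ) (DH_sup hKA ha)
    (DH_inf hKA ha)
  have hP0 : Phi h (0 : KK k N) = 0 := by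
    have := hPadd 0 0
    rw [add_zero] at this
    exact left_eq_add.mp this
  have hPneg : ∀ x : KK k N, Phi h (-x) = -Phi h x := by
    intro x
    have := hPadd x (-x)
    rw [add_neg_cancel, hP0] at this
    exact (neg_eq_of_add_eq_zero_right this.symm).symm
  have sw0 : sw (0 : LS (BB k N)) = 0 := by
    have := swadd 0 0
    rw [add_zero] at this
    exact left_eq_add.mp this
  have swneg : ∀ x : LS (BB k N), sw (-x) = -sw x := by
    intro x
    have := swadd x (-x)
    rw [add_neg_cancel, sw0] at this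
    exact (neg_eq_of_add_eq_zero_right this.symm).symm
  obtain ⟨c, hc⟩ : ∃ c : ℕ, ∀ r, c ≤ r → ¬ Gp γ r := ⟨(∑ i, γ i) + 1, by
    rintro r hr ⟨i, rfl⟩
    have := Finset.single_le_sum (f := γ) (fun j _ => Nat.zero_le _) (Finset.mem_univ i)
    omega⟩
  have hVGE : DH_V k γ ≤ GE k (-(c : ℤ)) := by
    intro v hv n hn
    obtain ⟨r, rfl⟩ : ∃ r : ℕ, n = -(r : ℤ) := ⟨(-n).toNat, by omega⟩
    exact hv r (hc r (by omega))
  -- the elements
  have hex : ∀ r : ℕ, ∃ (u : KK k N) (w : LS (BB k N)), CI (AA γ a) u ∧ CI (DH_V k γ) (sw w) ∧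
      sw (mono (-(r : ℤ)) (1 : BB k N) - w) = Phi h u := by
    intro r
    obtain ⟨u, v, hu, hv, huv⟩ := hdec (MvPowerSeries.C (mono (-(r : ℤ)) (1 : k)))
    obtain ⟨w, hw⟩ := swsurj (-(c : ℤ)) v (fun α => hVGE (hv α))
    refine ⟨u, w, hu, by rw [hw]; exact hv, ?_⟩
    have e1 := swmono (-(r : ℤ)) 1
    rw [map_one] at e1
    rw [sub_eq_add_neg, swadd, swneg, e1, hw, huv]
    ring
  choose u w hu hw huw using hex
  have hwV : ∀ f : LS (BB k N), CI (DH_V k γ) (sw f) ↔
      ∀ r : ℕ, ¬ Gp γ r → cf f (-(r : ℤ)) = 0 := by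
    intro f
    constructor
    · intro hf r hr
      ext α
      have := hf α r hr
      rw [DH_coeff_sw] at this
      rw [this, map_zero]
    · intro hf α r hr
      rw [DH_coeff_sw, hf r hr, map_zero]
  have h0 : ¬ Gp γ 0 := by
    rintro ⟨i, hi⟩
    have := ha.pos i
    omega
  have hone : CI (AA γ a) (1 : KK k N) := by
    intro α
    rw [MvPowerSeries.coeff_one]
    split_ifs
    · rw [← ha.one]
      exact Submodule.subset_span ⟨0, h0, rfl⟩
    · exact Submodule.zero_mem _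
  let A : ℕ → LS (BB k N) := fun r => mono (-(r : ℤ)) (1 : BB k N) - w r
  have hA : ∀ r, sw (A r) = Phi h (u r) := huw
  have hA1 : ∀ r r' : ℕ, ¬ Gp γ r → ¬ Gp γ r' →
      cf (A r) (-(r' : ℤ)) = if r = r' then 1 else 0 := by
    intro r r' hr hr'
    simp only [A]
    rw [cf_sub, (hwV (w r)).mp (hw r) r' hr', sub_zero, cf_mono]
    by_cases e : r = r'
    · rw [if_pos e, if_pos (by omega)]
    · rw [if_neg e, if_neg (by omega)]
  have hfwd : ∀ f ∈ AA γ A, ∃ x : KK k N, CI (AA γ a) x ∧ sw f = Phi h x := by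
    intro f hf
    induction hf using Submodule.span_induction with
    | mem y hy =>
      obtain ⟨r, _, rfl⟩ := hy
      exact ⟨u r, hu r, hA r⟩
    | zero => exact ⟨0, fun α => by rw [map_zero]; exact Submodule.zero_mem _, by rw [sw0, hP0]⟩
    | add y z _ _ hy hz =>
      obtain ⟨y', hy', hy2⟩ := hy
      obtain ⟨z', hz', hz2⟩ := hz
      exact ⟨y' + z', fun α => by rw [map_add]; exact Submodule.add_mem _ (hy' α) (hz' α), by
        rw [swadd, hPadd, hy2, hz2]⟩
    | smul b y _ hy =>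
      obtain ⟨y', hy', hy2⟩ := hy
      refine ⟨cB b * y', fun α => ?_, by rw [← C_mul, swmul, swC, hPB, hy2]⟩
      rw [MvPowerSeries.coeff_mul]
      refine Submodule.sum_mem _ fun q _ => ?_
      rw [DH_coeff_cB, C_mul]
      exact Submodule.smul_mem _ _ (hy' _)
  refine ⟨A, ?_, hA1, ?_, ?_⟩
  · -- A 0 = 1
    have e1 : Phi h (u 0 - 1) + sw (w 0) = 0 := by
      have e2 := huw 0
      rw [sub_eq_add_neg, swadd, swneg] at e2
      have e3 : sw (mono (-((0 : ℕ) : ℤ)) (1 : BB k N)) = 1 := by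
        have : (mono (-((0 : ℕ) : ℤ)) (1 : BB k N)) = 1 := by
          rw [Nat.cast_zero, neg_zero, ← C_eq_mono, map_one]
        rw [this, sw1]
      rw [e3] at e2
      rw [sub_eq_add_neg, hPadd, hPneg, hP1, ← e2]
      ring
    have e2 := (huniq (u 0 - 1) (sw (w 0)) (fun α => by
      rw [map_sub]; exact Submodule.sub_mem _ (hu 0 α) (hone α)) (hw 0) e1).2
    have e3 : w 0 = 0 := swinj (by rw [e2, sw0])
    simp only [A]
    rw [e3, sub_zero, Nat.cast_zero, neg_zero, ← C_eq_mono, map_one]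
  · -- reduction
    intro r hr
    have e1 : mp (constantCoeff (σ := Fin N) (R := k)) (A r) = coeff 0 (sw (A r)) := by
      ext n
      rw [DH_coeff_sw, cf_mp, MvPowerSeries.coeff_zero_eq_constantCoeff]
    have e2 : mp (constantCoeff (σ := Fin N) (R := k)) (A r) ∈ AA γ a := by
      rw [e1, hA r, hPlow 0 (u r) (fun α hα => absurd hα (Nat.not_lt_zero _)) 0 (by simp)]
      exact hu r 0
    have e3 : mp (constantCoeff (σ := Fin N) (R := k)) (A r) - a r ∈ AA γ a ⊓ DH_V k γ := by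
      refine ⟨Submodule.sub_mem _ e2 (Submodule.subset_span ⟨r, hr, rfl⟩), ?_⟩
      intro r' hr'
      rw [cf_sub, cf_mp, hA1 r r' hr hr', ha.coef r r' hr hr']
      split_ifs <;> simp
    rw [DH_inf hKA ha, Submodule.mem_bot] at e3
    exact sub_eq_zero.mp e3
  · intro f
    refine ⟨hfwd f, ?_⟩
    rintro ⟨x, hx, hfx⟩
    obtain ⟨M, hM⟩ := exists_lb_nat f
    have hs : (∑ r ∈ Finset.range (M + 1), if Gp γ r then 0 else cf f (-(r : ℤ)) • A r) ∈
        AA γ A := by
      refine Submodule.sum_mem _ fun r _ => ?_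
      split_ifs with hr
      · exact Submodule.zero_mem _
      · exact Submodule.smul_mem _ _ (Submodule.subset_span ⟨r, hr, rfl⟩)
    obtain ⟨y, hy, hsy⟩ := hfwd _ hs
    have e1 : CI (DH_V k γ)
        (sw (f - ∑ r ∈ Finset.range (M + 1), if Gp γ r then 0 else cf f (-(r : ℤ)) • A r)) := by
      rw [hwV]
      intro r hr
      rw [cf_sub, cf_sum]
      have e2 : ∀ i ∈ Finset.range (M + 1),
          cf (if Gp γ i then 0 else cf f (-(i : ℤ)) • A i) (-(r : ℤ)) =
          if i = r then cf f (-(r : ℤ)) else 0 := by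
        intro i _
        by_cases hi : Gp γ i
        · rw [if_pos hi, cf_zero, if_neg]
          rintro rfl
          exact hr hi
        · rw [if_neg hi, cf_smul, hA1 i r hi hr]
          split_ifs with e
          · rw [e, mul_one]
          · rw [mul_zero]
      rw [Finset.sum_congr rfl e2, Finset.sum_ite_eq']
      split_ifs with hr2
      · exact sub_self _
      · rw [Finset.mem_range] at hr2
        rw [hM _ (by omega), sub_zero]
    have e3 : Phi h (x - y) + sw (-(f - ∑ r ∈ Finset.range (M + 1),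
        if Gp γ r then 0 else cf f (-(r : ℤ)) • A r)) = 0 := by
      rw [swneg, sub_eq_add_neg f, swadd, swneg, hsy, hfx, sub_eq_add_neg x, hPadd, hPneg]
      ring
    have e4 := (huniq _ _ (fun α => by
      rw [map_sub]; exact Submodule.sub_mem _ (hx α) (hy α)) (by
        intro α
        rw [swneg, map_neg]
        exact Submodule.neg_mem _ (e1 α)) e3).2
    have e5 : -(f - ∑ r ∈ Finset.range (M + 1),
        if Gp γ r then 0 else cf f (-(r : ℤ)) • A r) = 0 := swinj (by rw [e4, sw0])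
    rw [neg_eq_zero, sub_eq_zero] at e5
    rw [e5]
    exact hs

end

end AN
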