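import Pool.Agent.helper48.AN.SpecD

namespace AN

open scoped Classical
open MvPowerSeries (constantCoeff coeff)

noncomputable section

/-- `mp` of `om` -/
theorem DJ_mp_om {R S : Type} [CommRing R] [CommRing S] (φ : R →+* S) {g : ℕ} (γ : Fin g → ℕ)
    (A : ℕ → LS R) (a : ℕ → LS S) (h : ∀ r, ¬ Gp γ r → mp φ (A r) = a r) (n : ℤ) :
    mp φ (om γ A n) = om γ a n := by
  ext m
  rw [cf_mp]
  simp only [om, cf_ofFun]
  split_ifs with h1 h2
  · exact map_one φ
  · rw [map_neg, ← cf_mp, h _ h2.2]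
  · exact map_zero φ

theorem DJ_om_GE {R : Type} [CommRing R] {g : ℕ} (γ : Fin g → ℕ) (a : ℕ → LS R) (n M : ℤ)
    (h1 : M ≤ n) (h2 : M ≤ -1) : om γ a n ∈ GE R M := by
  intro m hm
  simp only [om, cf_ofFun]
  rw [if_neg (by omega), if_neg (by omega)]

theorem DJ_mul {R : Type} [CommRing R] {g : ℕ} {γ : Fin g → ℕ} {A : ℕ → LS R}
    (hm : ∀ r r' : ℕ, ¬ Gp γ r → ¬ Gp γ r' → A r * A r' ∈ AA γ A) {f h : LS R}
    (hf : f ∈ AA γ A) (hh : h ∈ AA γ A) : f * h ∈ AA γ A := by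
  unfold AA at hf
  induction hf using Submodule.span_induction with
  | mem x hx =>
    obtain ⟨r, hr, rfl⟩ := hx
    unfold AA at hh
    induction hh using Submodule.span_induction with
    | mem y hy => obtain ⟨r', hr', rfl⟩ := hy; exact hm r r' hr hr'
    | zero => rw [mul_zero]; exact Submodule.zero_mem _
    | add y z _ _ hy hz => rw [mul_add]; exact Submodule.add_mem _ hy hz
    | smul c y _ hy => rw [← C_mul, mul_left_comm, C_mul]; exact Submodule.smul_mem _ c hy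
  | zero => rw [zero_mul]; exact Submodule.zero_mem _
  | add y z _ _ hy hz => rw [add_mul]; exact Submodule.add_mem _ hy hz
  | smul c y _ hy => rw [← C_mul, mul_assoc, C_mul]; exact Submodule.smul_mem _ c hy

theorem DJ_res {R : Type} [CommRing R] {g : ℕ} {γ : Fin g → ℕ} {A : ℕ → LS R}
    (hm : ∀ r r' : ℕ, ¬ Gp γ r → ¬ Gp γ r' → res (A r * dd (A r')) = 0) {f h : LS R}
    (hf : f ∈ AA γ A) (hh : h ∈ AA γ A) : res (f * dd h) = 0 := by
  unfold AA at hf
  induction hf using Submodule.span_induction with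
  | mem x hx =>
    obtain ⟨r, hr, rfl⟩ := hx
    unfold AA at hh
    induction hh using Submodule.span_induction with
    | mem y hy => obtain ⟨r', hr', rfl⟩ := hy; exact hm r r' hr hr'
    | zero => rw [map_zero, mul_zero]; exact res_zero
    | add y z _ _ hy hz => rw [map_add, mul_add, res_add, hy, hz, add_zero]
    | smul c y _ hy => rw [map_smul, ← C_mul, mul_left_comm, C_mul, res_smul, hy, mul_zero]
  | zero => rw [zero_mul]; exact res_zero
  | add y z _ _ hy hz => rw [add_mul, res_add, hy, hz, add_zero]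
  | smul c y _ hy => rw [← C_mul, mul_assoc, C_mul, res_smul, hy, mul_zero]

theorem DJ_lift {k : Type} [Field k] {N g : ℕ} {γ : Fin g → ℕ} {a : ℕ → LS k}
    {A : ℕ → LS (BB k N)} (hKA : KA_stmt) (ha : IsK γ a)
    (hA1 : ∀ r r' : ℕ, ¬ Gp γ r → ¬ Gp γ r' → cf (A r) (-(r' : ℤ)) = if r = r' then 1 else 0)
    (hA2 : ∀ r, ¬ Gp γ r → mp (constantCoeff (σ := Fin N) (R := k)) (A r) = a r)
    {c i : ℕ} (hc : ∀ r, c ≤ r → ¬ Gp γ r) (hi : c ≤ i) {f : LS k} (hf : f ∈ AA γ a)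
    (hfi : f ∈ GE k (-(i : ℤ))) :
    ∃ F ∈ AA γ A, F ∈ GE (BB k N) (-(i : ℤ)) ∧ mp (constantCoeff (σ := Fin N) (R := k)) F = f := by
  have h1 := (hKA k g γ a ha).2.2 f hf i (fun r hr _ => hfi _ (by omega))
  refine ⟨∑ r ∈ Finset.range (i + 1), if Gp γ r then 0 else
    (MvPowerSeries.C (cf f (-(r : ℤ))) : BB k N) • A r, ?_, ?_, ?_⟩
  · refine Submodule.sum_mem _ fun r hr => ?_
    split_ifs with h
    · exact Submodule.zero_mem _
    · exact Submodule.smul_mem _ _ (Submodule.subset_span ⟨r, h, rfl⟩)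
  · refine Submodule.sum_mem _ fun r hr => ?_
    split_ifs with h
    · exact Submodule.zero_mem _
    · refine Submodule.smul_mem _ _ ?_
      intro n hn
      obtain ⟨r', rfl⟩ : ∃ r' : ℕ, n = -(r' : ℤ) := ⟨(-n).toNat, by omega⟩
      rw [hA1 r r' h (hc r' (by omega)), if_neg]
      rintro rfl
      have := Finset.mem_range.mp hr
      omega
  · conv_rhs => rw [h1]
    rw [map_sum]
    refine Finset.sum_congr rfl fun r hr => ?_
    split_ifs with h
    · exact map_zero _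
    · rw [mp_smul, hA2 r h, MvPowerSeries.constantCoeff_C]

theorem DJ (hDJ0 : DJ0_stmt) (hDI : DI_stmt) (hDK : DK_stmt) (hKA : KA_stmt) : DJ_stmt := by
  intro p _ k _ _ N g γ a ha h A hA n hn
  obtain ⟨hmul, hres0⟩ := hDI k N g γ a ha h A hA
  obtain ⟨hA0, hA1, hA2, _⟩ := hA
  obtain ⟨hz, hexp⟩ := hDJ0 (BB k N) g γ A ha.inj ha.pos hA0 hA1
  obtain ⟨c, hc⟩ : ∃ c : ℕ, ∀ r, c ≤ r → ¬ Gp γ r := ⟨(∑ i, γ i) + 1, by
    rintro r hr ⟨i, rfl⟩
    have := Finset.single_le_sum (f := γ) (fun j _ => Nat.zero_le _) (Finset.mem_univ i)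
    omega⟩
  obtain ⟨M₀, hM₀⟩ := hDK p k g γ a ha c
  obtain ⟨M, hMdef⟩ : ∃ M : ℕ, M = M₀ + n.natAbs + 1 := ⟨_, rfl⟩
  let X : Submodule (BB k N) (LS (BB k N)) := Submodule.span _ {x | ∃ i j : ℕ, c ≤ i ∧ c ≤ j ∧
    i + j + 1 ≤ M ∧ ∃ f ∈ AA γ A, f ∈ GE (BB k N) (-(i : ℤ)) ∧ ∃ h ∈ AA γ A,
      h ∈ GE (BB k N) (-(j : ℤ)) ∧ x = f * dd h}
  let Sset : Set ℤ := {m | (m ≤ -2 ∨ ∃ i, m = (γ i : ℤ) - 1) ∧ -(M : ℤ) ≤ m}
  let Y : Submodule (BB k N) (LS (BB k N)) := Submodule.span _ (om γ A '' Sset)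
  have hSfin : Sset.Finite := by
    refine (Set.finite_Icc (-(M : ℤ)) ((∑ i, γ i : ℕ) : ℤ)).subset ?_
    rintro m ⟨hm | ⟨i, rfl⟩, hm2⟩
    · exact ⟨hm2, by omega⟩
    · refine ⟨hm2, ?_⟩
      have := Finset.single_le_sum (f := γ) (fun j _ => Nat.zero_le _) (Finset.mem_univ i)
      omega
  have hYfg : Y.FG := Submodule.fg_span (hSfin.image _)
  -- facts on X
  have hX1 : ∀ x ∈ X, ∀ r, ¬ Gp γ r → res (A r * x) = 0 := by
    intro x hx r hr
    induction hx using Submodule.span_induction with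
    | mem y hy =>
      obtain ⟨i, j, _, _, _, f, hf, _, h', hh', _, rfl⟩ := hy
      rw [← mul_assoc]
      exact DJ_res hres0 (DJ_mul hmul (Submodule.subset_span ⟨r, hr, rfl⟩) hf) hh'
    | zero => rw [mul_zero]; exact res_zero
    | add y z _ _ hy hz => rw [mul_add, res_add, hy, hz, add_zero]
    | smul d y _ hy => rw [← C_mul, mul_left_comm, C_mul, res_smul, hy, mul_zero]
  have hX2 : X ≤ GE (BB k N) (-(M : ℤ)) := by
    refine Submodule.span_le.mpr ?_
    rintro x ⟨i, j, _, _, hij, f, _, hfi, h', _, hhj, rfl⟩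
    exact GE_mono (by omega) (GE_mul hfi (dd_mem_GE hhj))
  have hX3 : X ≤ OmA γ A := by
    refine Submodule.span_le.mpr ?_
    rintro x ⟨i, j, _, _, hij, f, hf, hfi, h', hh', hhj, rfl⟩
    exact Submodule.subset_span ⟨f, hf, h', hh', rfl⟩
  -- lifting
  have hlift : ∀ x ∈ Submodule.span k {x : LS k | ∃ i j : ℕ, c ≤ i ∧ c ≤ j ∧ i + j + 1 ≤ M ∧
      ∃ f ∈ AA γ a, f ∈ GE k (-(i : ℤ)) ∧ ∃ h ∈ AA γ a, h ∈ GE k (-(j : ℤ)) ∧ x = f * dd h},
      ∃ y ∈ X, mp (constantCoeff (σ := Fin N) (R := k)) y = x := by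
    intro x hx
    induction hx using Submodule.span_induction with
    | mem y hy =>
      obtain ⟨i, j, hi, hj, hij, f, hf, hfi, h', hh', hhj, rfl⟩ := hy
      obtain ⟨F, hF, hFi, rfl⟩ := DJ_lift hKA ha hA1 hA2 hc hi hf hfi
      obtain ⟨H, hH, hHj, rfl⟩ := DJ_lift hKA ha hA1 hA2 hc hj hh' hhj
      exact ⟨F * dd H, Submodule.subset_span ⟨i, j, hi, hj, hij, F, hF, hFi, H, hH, hHj, rfl⟩, by
        rw [map_mul, dd_mp]⟩
    | zero => exact ⟨0, Submodule.zero_mem _, map_zero _⟩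
    | add y z _ _ hy hz =>
      obtain ⟨y', hy', rfl⟩ := hy
      obtain ⟨z', hz', rfl⟩ := hz
      exact ⟨y' + z', Submodule.add_mem _ hy' hz', map_add _ _ _⟩
    | smul d y _ hy =>
      obtain ⟨y', hy', rfl⟩ := hy
      exact ⟨(MvPowerSeries.C d : BB k N) • y', Submodule.smul_mem _ _ hy', by
        rw [mp_smul, MvPowerSeries.constantCoeff_C]⟩
  have hmax : ∀ b : BB k N, constantCoeff b = 0 → b ∈ IsLocalRing.maximalIdeal (BB k N) := by
    intro b hb
    rw [IsLocalRing.mem_maximalIdeal, mem_nonunits_iff, MvPowerSeries.isUnit_iff_constantCoeff, hb]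
    exact not_isUnit_zero
  have hY : Y ≤ X ⊔ IsLocalRing.maximalIdeal (BB k N) • Y := by
    refine Submodule.span_le.mpr ?_
    rintro _ ⟨m, ⟨hm1, hm2⟩, rfl⟩
    have e1 : mp (constantCoeff (σ := Fin N) (R := k)) (om γ A m) = om γ a m :=
      DJ_mp_om _ γ A a hA2 m
    have e2 : om γ a m ∈ GE k (-(M : ℤ)) := DJ_om_GE γ a m _ hm2 (by omega)
    obtain ⟨x, hx, hxe⟩ := hlift _ (hM₀ M (by omega) _ (ha.gen m hm1) e2)
    have e3 : om γ A m - x ∈ IsLocalRing.maximalIdeal (BB k N) • Y := by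
      have e4 : ∀ j, cf (om γ A m - x) j ∈ IsLocalRing.maximalIdeal (BB k N) := by
        intro j
        apply hmax
        rw [← cf_mp, map_sub, e1, hxe, sub_self, cf_zero]
      rw [hexp M (om γ A m - x) (fun r hr => by
        rw [mul_sub, res_sub, hz m hm1 r hr, hX1 x hx r hr, sub_zero])
        (Submodule.sub_mem _ (DJ_om_GE γ A m _ hm2 (by omega)) (hX2 hx))]
      refine Submodule.add_mem _ (Submodule.sum_mem _ fun j hj => ?_)
        (Submodule.sum_mem _ fun j _ => ?_)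
      · rw [Finset.mem_Icc] at hj
        exact Submodule.smul_mem_smul (e4 j)
          (Submodule.subset_span ⟨j, ⟨Or.inl hj.2, hj.1⟩, rfl⟩)
      · refine Submodule.smul_mem_smul (e4 _)
          (Submodule.subset_span ⟨_, ⟨Or.inr ⟨j, rfl⟩, ?_⟩, rfl⟩)
        have := ha.pos j
        omega
    have e5 : om γ A m = x + (om γ A m - x) := by ring
    rw [e5]
    exact Submodule.add_mem_sup hx e3
  have hfin : Y ≤ X :=
    Submodule.le_of_le_smul_of_le_jacobson_bot hYfg (IsLocalRing.maximalIdeal_le_jacobson _) hY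
  exact hX3 (hfin (Submodule.subset_span ⟨n, ⟨hn, by omega⟩, rfl⟩))

end

end AN
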