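import Pool.Agent.helper48.AN.SpecP

namespace AN

open scoped Classical
open Polynomial (X C eval)

noncomputable section

/-- the recursion for the coordinates of a fixed vector -/
def PE_y {K : Type} [Field K] (p : ℕ) (c : ℕ → K) : ℕ → Polynomial K
  | 0 => C (c 0) * X ^ p
  | i + 1 => (PE_y p c i) ^ p + C (c (i + 1)) * X ^ p

theorem PE_dvd {K : Type} [Field K] (p : ℕ) (hp : 2 ≤ p) (c : ℕ → K) (i : ℕ) :
    X ^ p ∣ PE_y p c i := by
  induction i with
  | zero => exact Dvd.intro_left _ rfl
  | succ i ih =>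
    rw [PE_y]
    exact dvd_add (dvd_pow ih (by omega)) (Dvd.intro_left _ rfl)

theorem PE_zero {K : Type} [Field K] (p : ℕ) (hp : 2 ≤ p) (c : ℕ → K) (i : ℕ)
    (h : PE_y p c i = 0) : ∀ j, j ≤ i → c j = 0 := by
  induction i with
  | zero =>
    intro j hj
    rw [PE_y] at h
    rcases mul_eq_zero.mp h with h | h
    · rw [Nat.le_zero.mp hj]
      exact Polynomial.C_eq_zero.mp h
    · exact absurd h (pow_ne_zero _ Polynomial.X_ne_zero)
  | succ i ih =>
    rw [PE_y] at h
    have h1 : (X : Polynomial K) ^ (p * p) ∣ PE_y p c i ^ p := by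
      rw [pow_mul]
      exact pow_dvd_pow_of_dvd (PE_dvd p hp c i) p
    have h2 : c (i + 1) = 0 := by
      by_contra hc
      have h3 : C (c (i + 1)) * X ^ p = -(PE_y p c i ^ p) := by
        rw [eq_neg_iff_add_eq_zero, add_comm]; exact h
      have h4 : (X : Polynomial K) ^ (p * p) ∣ C (c (i + 1)) * X ^ p := by
        rw [h3, dvd_neg]; exact h1
      have h5 := Polynomial.natDegree_le_of_dvd h4
        (mul_ne_zero (Polynomial.C_ne_zero.mpr hc) (pow_ne_zero _ Polynomial.X_ne_zero))
      rw [Polynomial.natDegree_X_pow, Polynomial.natDegree_C_mul_X_pow _ _ hc] at h5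
      nlinarith
    have h6 : PE_y p c i = 0 := by
      rw [h2, map_zero, zero_mul, add_zero] at h
      exact pow_eq_zero_iff (by omega) |>.mp h
    intro j hj
    rcases Nat.lt_or_ge j (i + 1) with h7 | h7
    · exact ih h6 j (by omega)
    · rw [show j = i + 1 by omega]; exact h2

theorem PE_root {K : Type} [Field K] [IsAlgClosed K] (p : ℕ) (hp : 2 ≤ p) (c : ℕ → K) (i : ℕ)
    (h : ∃ j ≤ i, c j ≠ 0) : ∃ z : K, z ≠ 0 ∧ eval z (PE_y p c i) = z := by
  have h0 : PE_y p c i ≠ 0 := by
    intro h1
    obtain ⟨j, hj, hc⟩ := h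
    exact hc (PE_zero p hp c i h1 j hj)
  obtain ⟨w, hw⟩ := PE_dvd p hp c i
  have hw0 : w ≠ 0 := by
    rintro rfl
    exact h0 (by rw [hw, mul_zero])
  have hdeg : (X ^ (p - 1) * w - 1 : Polynomial K).degree ≠ 0 := by
    intro h1
    have h2 : (X ^ (p - 1) * w : Polynomial K).natDegree = p - 1 + w.natDegree := by
      rw [Polynomial.natDegree_mul (pow_ne_zero _ Polynomial.X_ne_zero) hw0,
        Polynomial.natDegree_X_pow]
    have h3 : (X ^ (p - 1) * w - 1 : Polynomial K).natDegree = p - 1 + w.natDegree := by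
      rw [← h2]
      apply Polynomial.natDegree_sub_eq_left_of_natDegree_lt
      rw [Polynomial.natDegree_one, h2]
      omega
    have h4 := Polynomial.natDegree_eq_of_degree_eq_some (n := 0) h1
    omega
  obtain ⟨z, hz⟩ := IsAlgClosed.exists_root _ hdeg
  have hz' : z ^ (p - 1) * eval z w = 1 := by
    have := hz
    rw [Polynomial.IsRoot, Polynomial.eval_sub, Polynomial.eval_mul, Polynomial.eval_pow,
      Polynomial.eval_X, Polynomial.eval_one, sub_eq_zero] at this
    exact this
  have hz0 : z ≠ 0 := by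
    rintro rfl
    rw [zero_pow (by omega), zero_mul] at hz'
    exact zero_ne_one hz'
  refine ⟨z, hz0, ?_⟩
  rw [hw, Polynomial.eval_mul, Polynomial.eval_pow, Polynomial.eval_X]
  have h5 : z ^ p = z * z ^ (p - 1) := by
    rw [← pow_succ']
    congr 1
    omega
  rw [h5, mul_assoc, hz', mul_one]

theorem PE_rank_zero {K : Type} [Field K] {g : ℕ} (M : Matrix (Fin g) (Fin g) K)
    (h : M.rank = 0) : M = 0 := by
  unfold Matrix.rank at h
  have h1 := Submodule.finrank_eq_zero.mp h
  rw [LinearMap.range_eq_bot] at h1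
  ext i j
  have h2 := congrFun (LinearMap.congr_fun h1 (Pi.single j 1)) i
  rw [Matrix.mulVecLin_apply, Matrix.mulVec_single_one] at h2
  exact h2

theorem PE (hPF : PF_stmt) : PE_stmt := by
  intro p _ K _ _ _ g H hH
  have hp : 2 ≤ p := (Fact.out : p.Prime).two_le
  have hstep : ∀ n j, (fun i => MN p H (n + 1) i j) =
      H.mulVec (frV p (fun i => MN p H n i j)) := by
    intro n j
    ext i
    rw [MN, Matrix.mul_apply]
    rfl
  have hF0 : H.mulVec (frV p (0 : Fin g → K)) = 0 := by
    have : frV p (0 : Fin g → K) = 0 := by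
      ext i
      simp only [frV, Pi.zero_apply]
      exact zero_pow (by omega)
    rw [this, Matrix.mulVec_zero]
  obtain ⟨j, hj⟩ : ∃ j, ∀ n, (fun i => MN p H n i j) ≠ 0 := by
    by_contra hcon
    push Not at hcon
    choose n hn using hcon
    have hpers : ∀ j m, (fun i => MN p H (n j + m) i j) = 0 := by
      intro j m
      induction m with
      | zero => exact hn j
      | succ m ih => rw [← Nat.add_assoc, hstep, ih, hF0]
    have h1 : MN p H (g + ∑ j, n j) = 0 := by
      ext i j
      obtain ⟨m, hm⟩ : ∃ m, g + ∑ j, n j = n j + m := by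
        have := Finset.single_le_sum (f := n) (fun j _ => Nat.zero_le _) (Finset.mem_univ j)
        exact ⟨g + ∑ j, n j - n j, by omega⟩
      rw [hm]
      exact congrFun (hpers j m) i
    have h2 := (hPF p K g H).2 (g + ∑ j, n j) (Nat.le_add_right _ _)
    rw [h1, Matrix.rank_zero] at h2
    exact hH (PE_rank_zero _ h2.symm)
  let v : ℕ → Fin g → K := fun n i => MN p H n i j
  have hv : ∀ n, v (n + 1) = H.mulVec (frV p (v n)) := fun n => hstep n j
  have hv0 : ∀ n, v n ≠ 0 := hj
  have hex : ∃ r, ¬ LinearIndependent K (fun i : Fin r => v i) := by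
    refine ⟨g + 1, fun h => ?_⟩
    have := h.fintype_card_le_finrank
    rw [Fintype.card_fin, Module.finrank_fin_fun] at this
    omega
  obtain ⟨m, hind, hdep⟩ : ∃ m, LinearIndependent K (fun i : Fin (m + 1) => v i) ∧
      ¬ LinearIndependent K (fun i : Fin (m + 2) => v i) := by
    have h1 := Nat.find_spec hex
    have h2 : ∀ r, r < Nat.find hex → LinearIndependent K (fun i : Fin r => v i) := fun r hr => by
      have := Nat.find_min hex hr
      rwa [not_not] at this
    rcases hr : Nat.find hex with _ | _ | m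
    · rw [hr] at h1
      exact absurd (linearIndependent_empty_type) h1
    · rw [hr] at h1
      refine absurd ?_ h1
      rw [Fintype.linearIndependent_iff]
      intro c hc i
      have hi : i = 0 := Fin.ext (by omega)
      subst hi
      have h4 : ∑ i : Fin (0 + 1), c i • v i = c 0 • v 0 := Fin.sum_univ_one _
      rw [h4] at hc
      exact (smul_eq_zero.mp hc).resolve_right (hv0 0)
    · refine ⟨m, h2 _ (by omega), ?_⟩
      rw [hr] at h1
      exact h1
  have hmem : v (m + 1) ∈ Submodule.span K (Set.range (fun i : Fin (m + 1) => v i)) := by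
    by_contra hcon
    apply hdep
    rw [linearIndependent_finSucc']
    exact ⟨hind, hcon⟩
  rw [Submodule.mem_span_range_iff_exists_fun] at hmem
  obtain ⟨c, hc⟩ := hmem
  let c' : ℕ → K := fun i => if h : i < m + 1 then c ⟨i, h⟩ else 0
  have hc' : v (m + 1) = ∑ i ∈ Finset.range (m + 1), c' i • v i := by
    rw [← hc, Finset.sum_range]
    refine Finset.sum_congr rfl fun i _ => ?_
    simp only [c']
    rw [dif_pos i.2]
  have hcne : ∃ j ≤ m, c' j ≠ 0 := by
    by_contra hcon
    push Not at hcon
    apply hv0 (m + 1)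
    rw [hc']
    refine Finset.sum_eq_zero fun i hi => ?_
    rw [Finset.mem_range] at hi
    rw [hcon i (by omega), zero_smul]
  obtain ⟨z, hz0, hz⟩ := PE_root p hp c' m hcne
  let t : ℕ → K := fun i => eval z (PE_y p c' i)
  have ht0 : t 0 = c' 0 * z ^ p := by
    simp only [t, PE_y, Polynomial.eval_mul, Polynomial.eval_C, Polynomial.eval_pow,
      Polynomial.eval_X]
  have ht1 : ∀ i, t (i + 1) = t i ^ p + c' (i + 1) * z ^ p := by
    intro i
    simp only [t, PE_y, Polynomial.eval_add, Polynomial.eval_mul, Polynomial.eval_C,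
      Polynomial.eval_pow, Polynomial.eval_X]
  have htm : t m = z := hz
  have hF : ∀ (n : ℕ) (s : ℕ → K), H.mulVec (frV p (∑ i ∈ Finset.range n, s i • v i)) =
      ∑ i ∈ Finset.range n, s i ^ p • v (i + 1) := by
    intro n s
    have h1 : frV p (∑ i ∈ Finset.range n, s i • v i) =
        ∑ i ∈ Finset.range n, s i ^ p • frV p (v i) := by
      ext l
      simp only [frV, Finset.sum_apply, Pi.smul_apply, smul_eq_mul]
      rw [sum_pow_char p]
      exact Finset.sum_congr rfl fun i _ => mul_pow _ _ _
    rw [h1, Matrix.mulVec_sum]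
    refine Finset.sum_congr rfl fun i _ => ?_
    rw [Matrix.mulVec_smul, hv]
  refine ⟨∑ i ∈ Finset.range (m + 1), t i • v i, ?_, ?_⟩
  · intro h0
    rw [Finset.sum_range] at h0
    have := Fintype.linearIndependent_iff.mp hind (fun i => t i) h0 ⟨m, by omega⟩
    exact hz0 (by rw [← htm]; exact this)
  · rw [hF, Finset.sum_range_succ (fun i => t i ^ p • v (i + 1)) m, htm, hc',
      Finset.sum_range_succ' (fun i => c' i • v i) m, Finset.sum_range_succ' (fun i => t i • v i) m,
      smul_add, Finset.smul_sum, ← add_assoc, ← Finset.sum_add_distrib]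
    congr 1
    · refine Finset.sum_congr rfl fun i _ => ?_
      rw [ht1, add_smul, smul_smul, mul_comm (z ^ p)]
    · rw [ht0, smul_smul, mul_comm (z ^ p)]

end

end AN
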