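import Pool.Agent.helper48.AN.SpecP

namespace AN

open scoped Classical
open MvPowerSeries (constantCoeff)

noncomputable section

theorem PJ_inj {κ : Type} [Field κ] {g : ℕ} (H M : Matrix (Fin g) (Fin g) κ)
    (h : (H * M).rank = M.rank) (z : Fin g → κ) (hz : H.mulVec (M.mulVec z) = 0) :
    M.mulVec z = 0 := by
  have h1 : LinearMap.ker M.mulVecLin ≤ LinearMap.ker (H * M).mulVecLin := by
    intro w hw
    rw [LinearMap.mem_ker, Matrix.mulVecLin_apply] at hw ⊢
    rw [← Matrix.mulVec_mulVec, hw, Matrix.mulVec_zero]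
  have h2 := LinearMap.finrank_range_add_finrank_ker M.mulVecLin
  have h3 := LinearMap.finrank_range_add_finrank_ker (H * M).mulVecLin
  have h4 : LinearMap.ker M.mulVecLin = LinearMap.ker (H * M).mulVecLin := by
    apply Submodule.eq_of_le_of_finrank_eq h1
    unfold Matrix.rank at h
    omega
  have h5 : z ∈ LinearMap.ker (H * M).mulVecLin := by
    rw [LinearMap.mem_ker, Matrix.mulVecLin_apply, ← Matrix.mulVec_mulVec, hz]
  rw [← h4, LinearMap.mem_ker, Matrix.mulVecLin_apply] at h5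
  exact h5

theorem PJ_exmax {Ω : Type} [Field Ω] (V : ValuationSubring Ω) {ι : Type} [Finite ι] (c : ι → Ω)
    (hc : ∃ j, c j ∉ V) : ∃ j₀, c j₀ ∉ V ∧ c j₀ ≠ 0 ∧ ∀ j, c j / c j₀ ∈ V := by
  obtain ⟨j₁, hj₁⟩ := hc
  have : Nonempty ι := ⟨j₁⟩
  obtain ⟨j₀, hj₀⟩ := Finite.exists_max (fun j => V.valuation (c j))
  have h1 : c j₀ ∉ V := by
    intro h
    rw [← ValuationSubring.valuation_le_one_iff] at h
    apply hj₁
    rw [← ValuationSubring.valuation_le_one_iff]
    exact le_trans (hj₀ j₁) h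
  have h2 : c j₀ ≠ 0 := by
    intro h
    apply h1
    rw [h]
    exact zero_mem V
  refine ⟨j₀, h1, h2, fun j => ?_⟩
  rw [← ValuationSubring.valuation_le_one_iff, map_div₀]
  have h3 : V.valuation (c j₀) ≠ 0 := (Valuation.ne_zero_iff _).mpr h2
  exact div_le_one_of_le₀ (hj₀ j) zero_le

theorem PJ_inv_mem {Ω : Type} [Field Ω] (V : ValuationSubring Ω) {c : Ω} (hc : c ∉ V) :
    ∃ h : c⁻¹ ∈ V, (⟨c⁻¹, h⟩ : V) ∈ IsLocalRing.maximalIdeal V := by
  have h1 : c⁻¹ ∈ V := (V.mem_or_inv_mem c).resolve_left hc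
  refine ⟨h1, ?_⟩
  rw [ValuationSubring.valuation_lt_one_iff]
  rw [← ValuationSubring.valuation_le_one_iff, not_le] at hc
  show V.valuation c⁻¹ < 1
  rw [map_inv₀]
  exact inv_lt_one_of_one_lt₀ hc

theorem PJ_coef {Ω : Type} [Field Ω] (V : ValuationSubring Ω) {g : ℕ} {ι : Type} [Fintype ι]
    (v : ι → Fin g → V)
    (hv : LinearIndependent (IsLocalRing.ResidueField V)
      (fun j i => IsLocalRing.residue V (v j i)))
    (y : Fin g → V) (c : ι → Ω) (h : ∀ i, (y i : Ω) = ∑ j, c j * (v j i : Ω)) :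
    ∀ j, c j ∈ V := by
  by_contra hcon
  push Not at hcon
  obtain ⟨j₀, h1, h2, h3⟩ := PJ_exmax V c hcon
  obtain ⟨h4, h5⟩ := PJ_inv_mem V h1
  have h6 : ∀ i, (⟨(c j₀)⁻¹, h4⟩ : V) * y i = ∑ j, (⟨c j / c j₀, h3 j⟩ : V) * v j i := by
    intro i
    apply Subtype.ext
    push_cast
    rw [h i, Finset.mul_sum]
    refine Finset.sum_congr rfl fun j _ => ?_
    rw [div_eq_mul_inv]
    ring
  rw [Fintype.linearIndependent_iff] at hv
  have h7 := hv (fun j => IsLocalRing.residue V ⟨c j / c j₀, h3 j⟩) (by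
    ext i
    have := congrArg (IsLocalRing.residue V) (h6 i)
    rw [map_mul, (IsLocalRing.residue_eq_zero_iff _).mpr h5, zero_mul, map_sum] at this
    rw [Finset.sum_apply, Pi.zero_apply, this]
    refine Finset.sum_congr rfl fun j _ => ?_
    rw [map_mul]
    rfl) j₀
  have h8 : (⟨c j₀ / c j₀, h3 j₀⟩ : V) = 1 := Subtype.ext (div_self h2)
  simp only [h8, map_one] at h7
  exact one_ne_zero h7

theorem PJ_frV_mulVec {R : Type} [CommRing R] (p : ℕ) [Fact p.Prime] [CharP R p] {g : ℕ}
    (M : Matrix (Fin g) (Fin g) R) (z : Fin g → R) :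
    frV p (M.mulVec z) = (frM p M).mulVec (frV p z) := by
  ext i
  simp only [frV, frM, Matrix.mulVec, dotProduct, Matrix.map_apply]
  rw [sum_pow_char p]
  refine Finset.sum_congr rfl fun j _ => ?_
  rw [mul_pow]

theorem PJ_iter {R : Type} [CommRing R] (p : ℕ) [Fact p.Prime] [CharP R p] {g : ℕ}
    (H : Matrix (Fin g) (Fin g) R) (x : Fin g → R) (hx : x = H.mulVec (frV p x)) (n : ℕ) :
    ∃ z, x = (MN p H n).mulVec z := by
  induction n with
  | zero => exact ⟨x, by rw [MN, Matrix.one_mulVec]⟩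
  | succ n ih =>
    obtain ⟨z, hz⟩ := ih
    refine ⟨frV p z, ?_⟩
    rw [MN, ← Matrix.mulVec_mulVec, ← PJ_frV_mulVec, ← hz]
    exact hx

theorem PJ (hPF : PF_stmt) (hPG : PG_stmt) : PJ_stmt := by
  intro p _ Ω _ _ V g H x hx hxV
  obtain ⟨hMN, hrk, _⟩ := hPG
  by_contra hcon
  rw [not_lt] at hcon
  have hp : p.Prime := Fact.out
  have : CharP (IsLocalRing.ResidueField V) p := by
    have h0 : ((p : ℕ) : V) = 0 := by
      apply Subtype.ext
      push_cast
      exact CharP.cast_eq_zero Ω p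
    have h1 : ((p : ℕ) : IsLocalRing.ResidueField V) = 0 := by
      rw [← map_natCast (IsLocalRing.residue V), h0, map_zero]
    exact (CharP.charP_iff_prime_eq_zero hp).mpr h1
  -- `y = x / x_j`
  obtain ⟨j₀, h1, h2, h3⟩ := PJ_exmax V x hxV
  obtain ⟨h4, h5⟩ := PJ_inv_mem V h1
  let y : Fin g → V := fun i => ⟨x i / x j₀, h3 i⟩
  have hy0 : y j₀ = 1 := Subtype.ext (div_self h2)
  let W : Matrix (Fin g) (Fin g) V := MN p H g
  have hWΩ : MN p (H.map (algebraMap V Ω)) g = W.map (algebraMap V Ω) := hMN p V Ω _ g H g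
  have hWκ : MN p (H.map (IsLocalRing.residue V)) g = W.map (IsLocalRing.residue V) :=
    hMN p V _ _ g H g
  -- `H y^(p) = x_j^(1-p) y`
  have hHy : ∀ i, (H.mulVec (frV p y)) i = (⟨(x j₀)⁻¹, h4⟩ : V) ^ (p - 1) * y i := by
    intro i
    apply Subtype.ext
    have e1 : ((H.mulVec (frV p y)) i : Ω) = (x j₀)⁻¹ ^ p * x i := by
      rw [show x i = ((H.map (algebraMap V Ω)).mulVec (frV p x)) i from congrFun hx i]
      simp only [Matrix.mulVec, dotProduct, frV, Matrix.map_apply]
      push_cast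
      rw [Finset.mul_sum]
      refine Finset.sum_congr rfl fun j _ => ?_
      show (H i j : Ω) * (x j / x j₀) ^ p = (x j₀)⁻¹ ^ p * ((H i j : Ω) * x j ^ p)
      rw [div_eq_mul_inv, mul_pow]
      ring
    rw [e1]
    push_cast
    show (x j₀)⁻¹ ^ p * x i = (x j₀)⁻¹ ^ (p - 1) * (x i / x j₀)
    obtain ⟨q, hq⟩ : ∃ q, p = q + 1 := ⟨p - 1, by have := hp.one_lt; omega⟩
    rw [hq, Nat.add_sub_cancel, pow_succ, div_eq_mul_inv]
    ring
  have hHyκ : (H.map (IsLocalRing.residue V)).mulVec
      (frV p (fun i => IsLocalRing.residue V (y i))) = 0 := by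
    ext i
    have e1 := congrArg (IsLocalRing.residue V) (hHy i)
    rw [map_mul, map_pow, (IsLocalRing.residue_eq_zero_iff _).mpr h5,
      zero_pow (by have := hp.one_lt; omega), zero_mul] at e1
    rw [Pi.zero_apply, ← e1]
    simp only [Matrix.mulVec, dotProduct, frV, Matrix.map_apply]
    rw [map_sum]
    refine Finset.sum_congr rfl fun j _ => ?_
    rw [map_mul, map_pow]
  -- columns
  obtain ⟨κ', b, hbinj, hbspan, hbli⟩ := exists_linearIndependent' (IsLocalRing.ResidueField V)
    (W.map (IsLocalRing.residue V)).col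
  have : Finite κ' := Finite.of_injective b hbinj
  let _ : Fintype κ' := Fintype.ofFinite κ'
  have hcard : Fintype.card κ' = (W.map (IsLocalRing.residue V)).rank := by
    rw [Matrix.rank_eq_finrank_span_cols, ← hbspan, finrank_span_eq_card hbli]
  let v : κ' → Fin g → V := fun j i => W i (b j)
  have hv : LinearIndependent (IsLocalRing.ResidueField V)
      (fun j i => IsLocalRing.residue V (v j i)) := hbli
  have hvΩ : LinearIndependent Ω ((W.map (algebraMap V Ω)).col ∘ b) := by
    rw [Fintype.linearIndependent_iff]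
    intro c hc j
    by_contra hcj
    have e1 := PJ_coef V v hv 0 (fun i => (x j₀ / c j) * c i) (by
      intro i
      have := congrFun hc i
      rw [Finset.sum_apply, Pi.zero_apply] at this
      have e2 : ∑ i_1, (x j₀ / c j * c i_1) * (v i_1 i : Ω) =
          (x j₀ / c j) * ∑ c_1, (c c_1 • ((W.map (algebraMap V Ω)).col ∘ b) c_1) i := by
        rw [Finset.mul_sum]
        refine Finset.sum_congr rfl fun l _ => ?_
        rw [mul_assoc]
        rfl
      rw [e2, this, mul_zero]
      rfl) j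
    apply h1
    have e3 : x j₀ / c j * c j = x j₀ := div_mul_cancel₀ _ hcj
    simp only [e3] at e1
    exact e1
  have hle : Submodule.span Ω (Set.range ((W.map (algebraMap V Ω)).col ∘ b)) ≤
      Submodule.span Ω (Set.range (W.map (algebraMap V Ω)).col) :=
    Submodule.span_mono (Set.range_comp_subset_range _ _)
  have hspan : Submodule.span Ω (Set.range ((W.map (algebraMap V Ω)).col ∘ b)) =
      Submodule.span Ω (Set.range (W.map (algebraMap V Ω)).col) := by
    apply Submodule.eq_of_le_of_finrank_le hle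
    rw [finrank_span_eq_card hvΩ, hcard, ← Matrix.rank_eq_finrank_span_cols, ← hWΩ, ← hWκ]
    exact hcon
  -- `y` is in the column space
  obtain ⟨z, hz⟩ := PJ_iter p (H.map (algebraMap V Ω)) x hx g
  have hymem : (fun i => (y i : Ω)) ∈
      Submodule.span Ω (Set.range ((W.map (algebraMap V Ω)).col ∘ b)) := by
    rw [hspan, ← Matrix.range_mulVecLin]
    refine ⟨fun i => (x j₀)⁻¹ * z i, ?_⟩
    rw [Matrix.mulVecLin_apply]
    ext i
    show _ = x i / x j₀
    have e1 : (fun i => (x j₀)⁻¹ * z i) = (x j₀)⁻¹ • z := rfl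
    rw [e1, Matrix.mulVec_smul, ← hWΩ, ← hz, div_eq_mul_inv, mul_comm]
    rfl
  rw [Submodule.mem_span_range_iff_exists_fun] at hymem
  obtain ⟨c, hc⟩ := hymem
  have hcV : ∀ j, c j ∈ V := PJ_coef V v hv y c (by
    intro i
    have := congrFun hc i
    rw [Finset.sum_apply] at this
    rw [← this]
    refine Finset.sum_congr rfl fun l _ => ?_
    rfl)
  have hyκ : (fun i => IsLocalRing.residue V (y i)) ∈ Submodule.span (IsLocalRing.ResidueField V)
      (Set.range (W.map (IsLocalRing.residue V)).col) := by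
    rw [← hbspan, Submodule.mem_span_range_iff_exists_fun]
    refine ⟨fun j => IsLocalRing.residue V ⟨c j, hcV j⟩, ?_⟩
    ext i
    have e1 : y i = ∑ j, (⟨c j, hcV j⟩ : V) * v j i := by
      apply Subtype.ext
      push_cast
      have := congrFun hc i
      rw [Finset.sum_apply] at this
      rw [← this]
      refine Finset.sum_congr rfl fun l _ => ?_
      rfl
    rw [Finset.sum_apply, e1, map_sum]
    refine Finset.sum_congr rfl fun l _ => ?_
    rw [map_mul]
    rfl
  rw [← Matrix.range_mulVecLin] at hyκ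
  obtain ⟨u, hu⟩ := hyκ
  rw [Matrix.mulVecLin_apply] at hu
  -- conclusion
  have hr1 : (MN p (H.map (IsLocalRing.residue V)) (g + 1)).rank =
      (MN p (H.map (IsLocalRing.residue V)) g).rank :=
    (hPF p _ g (H.map (IsLocalRing.residue V))).2 (g + 1) (Nat.le_succ g)
  have hr2 : (frM p (W.map (IsLocalRing.residue V))).rank =
      (W.map (IsLocalRing.residue V)).rank := by
    have := hrk _ _ (frobenius (IsLocalRing.ResidueField V) p) g g
      (W.map (IsLocalRing.residue V))
    rw [← this]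
    rfl
  have hr3 : (H.map (IsLocalRing.residue V) * frM p (W.map (IsLocalRing.residue V))).rank =
      (frM p (W.map (IsLocalRing.residue V))).rank := by
    rw [hr2, ← hWκ, ← hr1]
    rfl
  have e1 := PJ_inj _ _ hr3 (frV p u) (by
    rw [← PJ_frV_mulVec, hu]
    exact hHyκ)
  rw [← PJ_frV_mulVec, hu] at e1
  have e2 := congrFun e1 j₀
  simp only [frV, hy0, map_one, one_pow, Pi.zero_apply] at e2
  exact one_ne_zero e2

end

end AN
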