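import Pool.Agent.helper48.AN.SpecA

namespace AN

open scoped Classical

noncomputable section

/-- vector fields act on functions: `t * dd α ∈ A` for `t ∈ TT`, `α ∈ A`. -/
theorem TE_act {K : Type} [CommRing K] {g N : ℕ} {γ : Fin g → ℕ} {a : ℕ → LS K} {ν : Fin N → ℕ}
    {τ : ℕ → LS K} (hT : IsT γ a ν τ) {t α : LS K} (ht : t ∈ TT ν τ) (hα : α ∈ AA γ a) :
    t * dd α ∈ AA γ a := by
  unfold TT at ht
  induction ht using Submodule.span_induction with
  | mem x hx =>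
    obtain ⟨n, hn1, hn, rfl⟩ := hx
    unfold AA at hα
    induction hα using Submodule.span_induction with
    | mem y hy =>
      obtain ⟨r, hr, rfl⟩ := hy
      exact hT.act n r hn1 hn hr
    | zero => rw [map_zero, mul_zero]; exact Submodule.zero_mem _
    | add y z _ _ hy hz => rw [map_add, mul_add]; exact Submodule.add_mem _ hy hz
    | smul c y _ hy =>
      rw [map_smul, ← C_mul, mul_left_comm, C_mul]
      exact Submodule.smul_mem _ c hy
  | zero => rw [zero_mul]; exact Submodule.zero_mem _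
  | add y z _ _ hy hz => rw [add_mul]; exact Submodule.add_mem _ hy hz
  | smul c y _ hy =>
    rw [← C_mul, mul_assoc, C_mul]
    exact Submodule.smul_mem _ c hy

theorem TE (hTA : TA_stmt) (hTD : TD_stmt) (hKB : KB_stmt) : TE_stmt := by
  intro p _ K _ _ g N γ a ν τ θ M S hyp g₀ hg₀ o₀ ho₀ f₀ hf₀ hw
  obtain ⟨haA, hcA, hconst, _, _, _, _, _⟩ := hKB K g γ a hyp.isK
  have hdd : dd g₀ = -dd o₀ := by
    have h1 : dd (f₀ ^ p) = 0 := dd_pow_char p f₀ p dvd_rfl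
    rw [hf₀, map_add] at h1
    exact eq_neg_of_add_eq_zero_left h1
  have hwPS : dd g₀ ∈ PS K := by
    rw [hdd]
    exact Submodule.neg_mem _ (dd_mem_PS ho₀)
  have hD0 : ∀ D : Derivation ℤ K K, cD D g₀ = -cD D o₀ := by
    intro D
    have h1 : cD D (f₀ ^ p) = 0 := by
      ext n
      rw [cf_cD, cf_pow_char p, cf_zero]
      split_ifs
      · rw [D.leibniz_pow]
        simp
      · exact map_zero D
    rw [hf₀, map_add] at h1
    exact eq_neg_of_add_eq_zero_left h1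
  have third : ∀ x : LS K, (∃ α ∈ AA γ a, ∃ o ∈ PS K, x * dd g₀ = α + o) →
      ∃ d ∈ S, ∃ t ∈ TT ν τ, ∃ ρ ∈ PS K, x = (∑ i, LS.C (d i) * θ i) + t + ρ := by
    refine hTD K g N γ a ν τ hyp.isK hyp.isT θ M hyp.det hyp.pol S hyp.dim g₀ hg₀ hwPS hw ?_
    intro d hd
    obtain ⟨D, hD⟩ := hyp.der d hd
    obtain ⟨hE, _, _⟩ := hTA p K g γ a hyp.isK D _ hD
    refine ⟨_, hE g₀ hg₀, cD D o₀, cD_mem_GE D ho₀, ?_⟩
    rw [hD0 D]
    ring
  have tact : ∀ (D : Derivation ℤ K K) (θ₁ t : LS K),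
      (∀ r, ¬ Gp γ r → cD D (a r) + θ₁ * dd (a r) ∈ AA γ a) → t ∈ TT ν τ →
      ∀ r, ¬ Gp γ r → cD D (a r) + (θ₁ + t) * dd (a r) ∈ AA γ a := by
    intro D θ₁ t hD ht r hr
    rw [add_mul, ← add_assoc]
    exact Submodule.add_mem _ (hD r hr) (TE_act hyp.isT ht (haA r hr))
  refine ⟨?_, ?_, third⟩
  · intro α hα
    obtain ⟨d, hd, t, ht, ρ, hρ, hx⟩ := third (α / dd g₀) ⟨α, hα, 0, Submodule.zero_mem _, by
      rw [div_mul_cancel₀ _ hw, add_zero]⟩
    obtain ⟨D, hD⟩ := hyp.der d hd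
    have hD' := tact D _ t hD ht
    obtain ⟨hE, _, _⟩ := hTA p K g γ a hyp.isK D _ hD'
    have e1 : α = (∑ i, LS.C (d i) * θ i + t) * dd g₀ + ρ * dd g₀ := by
      rw [← add_mul, ← hx, div_mul_cancel₀ _ hw]
    have e2 : α - (cD D g₀ + (∑ i, LS.C (d i) * θ i + t) * dd g₀) = ρ * dd g₀ + cD D o₀ := by
      rw [hD0 D]
      linear_combination e1
    obtain ⟨c, hc⟩ := hconst _ (Submodule.sub_mem _ hα (hE g₀ hg₀)) (by
      rw [e2]
      exact Submodule.add_mem _ (PS_mul hρ hwPS) (cD_mem_GE D ho₀))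
    exact ⟨D, _, c, hD', by rw [← hc]; ring⟩
  · intro b hb
    obtain ⟨d, hd, t, ht, ρ, hρ, hx⟩ := third (b / dd g₀) ⟨0, Submodule.zero_mem _, b, hb, by
      rw [div_mul_cancel₀ _ hw, zero_add]⟩
    obtain ⟨D, hD⟩ := hyp.der d hd
    have hD' := tact D _ t hD ht
    obtain ⟨hE, _, _⟩ := hTA p K g γ a hyp.isK D _ hD'
    have e1 : b = (∑ i, LS.C (d i) * θ i + t) * dd g₀ + ρ * dd g₀ := by
      rw [← add_mul, ← hx, div_mul_cancel₀ _ hw]
    have e2 : cD D g₀ + (∑ i, LS.C (d i) * θ i + t) * dd g₀ = b - ρ * dd g₀ - cD D o₀ := by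
      rw [hD0 D]
      linear_combination -e1
    obtain ⟨c, hc⟩ := hconst _ (hE g₀ hg₀) (by
      rw [e2]
      exact Submodule.sub_mem _ (Submodule.sub_mem _ hb (PS_mul hρ hwPS)) (cD_mem_GE D ho₀))
    refine ⟨D, c, -ρ, Submodule.neg_mem _ hρ, ?_⟩
    rw [e2] at hc
    have e3 : dd g₀ = -dd o₀ := hdd
    rw [e3] at hc
    linear_combination hc

end

end AN
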