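import Pool.Agent.helper48.AN.SpecA

namespace AN

open scoped Classical

noncomputable section

/-- vector fields act on functions: `t * dd α ∈ A` for `t ∈ TT`, `α ∈ A`. -/
theorem TF_act {K : Type} [CommRing K] {g N : ℕ} {γ : Fin g → ℕ} {a : ℕ → LS K} {ν : Fin N → ℕ}
    {τ : ℕ → LS K} (hT : IsT γ a ν τ) {t α : LS K} (ht : t ∈ TT ν τ) (hα : α ∈ AA γ a) :
    t * dd α ∈ AA γ a := by
  unfold TT at ht
  induction ht using Submodule.span_induction with
  | mem x hx =>
    obtain ⟨n, hn1, hn, rfl⟩ := hx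
    unfold AA at hα
    induction hα using Submodule.span_induction with
    | mem y hy =>
      obtain ⟨r, hr, rfl⟩ := hy
      exact hT.act n r hn1 hn hr
    | zero => rw [map_zero, mul_zero]; exact Submodule.zero_mem _
    | add y z _ _ hy hz => rw [map_add, mul_add]; exact Submodule.add_mem _ hy hz
    | smul c y _ hy =>
      rw [map_smul, ← C_mul, mul_left_comm, C_mul]
      exact Submodule.smul_mem _ c hy
  | zero => rw [zero_mul]; exact Submodule.zero_mem _
  | add y z _ _ hy hz => rw [add_mul]; exact Submodule.add_mem _ hy hz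
  | smul c y _ hy =>
    rw [← C_mul, mul_assoc, C_mul]
    exact Submodule.smul_mem _ c hy

/-- `res (D α * dd α') = 0` if `dd α`, `dd α'` are power series. -/
theorem TF_res {K : Type} [CommRing K] (D : Derivation ℤ K K) {α α' : LS K} (hα : dd α ∈ PS K)
    (hα' : dd α' ∈ PS K) : res (cD D α * dd α') = 0 := by
  obtain ⟨m, hm⟩ := exists_lb α
  let κ : LS K := ofFun (fun n => if n < 0 then cf α n else 0) m (fun n hn => by
    rw [hm n hn]; simp)
  let b : LS K := α - κ
  have hb : b ∈ PS K := by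
    intro n hn
    simp only [b, κ, cf_sub, cf_ofFun]
    rw [if_pos hn, sub_self]
  have hκ : dd κ = 0 := by
    have h1 : dd κ = dd α - dd b := by simp [b]
    have h2 : dd κ ∈ PS K := by
      rw [h1]; exact Submodule.sub_mem _ hα (dd_mem_PS hb)
    ext n
    rw [cf_zero]
    by_cases hn : n < 0
    · exact h2 n hn
    · rw [cf_dd]
      simp only [κ, cf_ofFun]
      rw [if_neg (by omega), mul_zero]
  have h3 : α = κ + b := by simp [b]
  have h4 : cD D κ * dd α' = dd (cD D κ * α') := by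
    rw [dd_mul, dd_cD, hκ, map_zero, zero_mul, zero_add]
  have h5 : res (cD D b * dd α') = 0 := res_PS (PS_mul (cD_mem_GE D hb) hα')
  rw [h3, map_add, add_mul, res_add, h5, add_zero, h4, res_dd]

theorem TF (hTE : TE_stmt) (hTA : TA_stmt) (hKB : KB_stmt) (hKC : KC_stmt) : TF_stmt := by
  intro p _ K _ _ g N γ a ν τ θ M S hyp g₀ hg₀ o₀ ho₀ f₀ hf₀ hw α hα α' hα' hu hu'
  obtain ⟨_, _, hTE3⟩ := hTE p K g N γ a ν τ θ M S hyp g₀ hg₀ o₀ ho₀ f₀ hf₀ hw
  obtain ⟨_, _, _, _, hres, _, _, _⟩ := hKB K g γ a hyp.isK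
  have key : ∀ x : LS K, (∃ α ∈ AA γ a, ∃ o ∈ PS K, x * dd g₀ = α + o) →
      res (x * (dd α * dd α')) = 0 := by
    intro x hx
    obtain ⟨d, hd, t, ht, ρ, hρ, rfl⟩ := hTE3 x hx
    obtain ⟨D, hD⟩ := hyp.der d hd
    obtain ⟨hE, _, _⟩ := hTA p K g γ a hyp.isK D _ hD
    have e1 : (∑ i, LS.C (d i) * θ i) * (dd α * dd α') =
        (cD D α + (∑ i, LS.C (d i) * θ i) * dd α) * dd α' - cD D α * dd α' := by ring
    have r1 : res ((∑ i, LS.C (d i) * θ i) * (dd α * dd α')) = 0 := by
      rw [e1, res_sub, hres _ (hE α hα) α' hα', TF_res D hu hu', sub_zero]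
    have r2 : res (t * (dd α * dd α')) = 0 := by
      rw [← mul_assoc]
      exact hres _ (TF_act hyp.isT ht hα) α' hα'
    have r3 : res (ρ * (dd α * dd α')) = 0 := res_PS (PS_mul hρ (PS_mul hu hu'))
    rw [add_mul, add_mul, res_add, res_add, r1, r2, r3]
    simp
  constructor
  · apply hKC K g γ a hyp.isK
    intro f hf
    have h1 := key (f / dd g₀) ⟨f, hf, 0, Submodule.zero_mem _, by
      rw [div_mul_cancel₀ _ hw, add_zero]⟩
    have h2 : f / dd g₀ * (dd α * dd α') = f * (dd α * dd α' / dd g₀) := by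
      field_simp
    rw [h2] at h1
    exact h1
  · intro n hn
    have h0 : mono (-1 - n) (1 : K) ∈ PS K := GE_mono (by omega) (mono_mem_GE (-1 - n) (1 : K))
    have h1 := key (mono (-1 - n) (1 : K) / dd g₀) ⟨0, Submodule.zero_mem _, _, h0, by
      rw [div_mul_cancel₀ _ hw, zero_add]⟩
    have h2 : mono (-1 - n) (1 : K) / dd g₀ * (dd α * dd α') =
        mono (-1 - n) (1 : K) * (dd α * dd α' / dd g₀) := by
      field_simp
    rw [h2] at h1
    unfold res at h1
    rw [cf_mono_mul, one_mul] at h1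
    have h3 : (-1 : ℤ) - (-1 - n) = n := by ring
    rw [h3] at h1
    exact h1

end

end AN
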